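import Mathlib

/-!
Abstract search lemmas for computable bounds: a search in a primcodable type, finite tables, and
the dichotomy (finitely many or infinitely many exceptional levels).
-/

namespace Pool.H63.AL

/-- A finite table is primitive recursive. -/
theorem tab_primrec {W : Type*} [Primcodable W] (n0 : ℕ) (d : W) (T : ℕ → W) :
    Primrec fun n : ℕ => if n < n0 then T n else d := by
  have h : Primrec fun n : ℕ => ((List.range n0).map T).getD n d :=
    (Primrec.list_getD d).comp (Primrec.const _) Primrec.id
  refine h.of_eq fun n => ?_
  by_cases hn : n < n0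
  · simp [hn]
  · simp [hn]

/-- The search predicate on codes. -/
def q {C W : Type*} [Primcodable W] (p : C → W → Bool) (c : C) (n : ℕ) : Bool :=
  ((Encodable.decode (α := W) n).map (p c)).getD false

theorem q_comp {C W : Type*} [Primcodable C] [Primcodable W] (p : C → W → Bool)
    (hp : Computable₂ p) : Computable₂ (q p) := by
  unfold q
  refine Computable.option_getD ?_ (Computable.const false)
  refine Computable.option_map (Computable.decode.comp Computable.snd) ?_
  exact hp.comp (Computable.fst.comp Computable.fst) Computable.snd

/-- The search predicate as a partial function. -/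
def qp {C W : Type*} [Primcodable W] (p : C → W → Bool) (c : C) : ℕ →. Bool :=
  fun n => Part.some (q p c n)

/-- Unbounded search in a primcodable type. -/
theorem search {C W : Type*} [Primcodable C] [Primcodable W] [Inhabited W] (p : C → W → Bool)
    (hp : Computable₂ p) (h : ∀ c, ∃ w, p c w = true) :
    ∃ f : C → W, Computable f ∧ ∀ c, p c (f c) = true := by
  have hex : ∀ c, ∃ n, q p c n = true := by
    intro c
    obtain ⟨w, hw⟩ := h c
    exact ⟨Encodable.encode w, by simp [q, hw]⟩
  have hpart : Partrec fun c => Nat.rfind (qp p c) :=
    Partrec.rfind (p := qp p) (q_comp p hp).partrec₂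
  have hmem : ∀ c, Nat.find (hex c) ∈ Nat.rfind (qp p c) := by
    intro c
    rw [Nat.mem_rfind]
    refine ⟨?_, ?_⟩
    · show true ∈ Part.some (q p c (Nat.find (hex c)))
      rw [Part.mem_some_iff]
      exact (Nat.find_spec (hex c)).symm
    · intro m hm
      show false ∈ Part.some (q p c m)
      rw [Part.mem_some_iff]
      have := Nat.find_min (hex c) hm
      simpa using this
  have hN : Computable fun c => Nat.find (hex c) := by
    refine hpart.of_eq fun c => ?_
    exact Part.eq_some_iff.2 (hmem c)
  refine ⟨fun c => (Encodable.decode (α := W) (Nat.find (hex c))).getD default, ?_, ?_⟩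
  · exact Computable.option_getD (Computable.decode.comp hN) (Computable.const default)
  · intro c
    have hs := Nat.find_spec (hex c)
    show p c ((Encodable.decode (α := W) (Nat.find (hex c))).getD default) = true
    generalize Nat.find (hex c) = n at hs
    unfold q at hs
    cases hd : Encodable.decode (α := W) n with
    | none => rw [hd] at hs; simp at hs
    | some w => rw [hd] at hs; simpa using hs

/-- The dichotomy. `E v` says that `v` is a certified exceptional witness of level `lv v`. There
is a computable `B` such that `B c` is the bound `b1 v c` given by some witness `v` of level at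
least `lev c`, or there is no such witness and `B c` is `b0 c`. -/
theorem dich {C V : Type*} [Primcodable C] [Primcodable V] [Inhabited V] (lev : C → ℕ)
    (hlev : Computable lev) (lv : V → ℕ) (hlv : Computable lv) (E : V → Bool)
    (hE : Computable E) (b0 : C → ℕ) (hb0 : Computable b0) (b1 : V → C → ℕ)
    (hb1 : Computable₂ b1) :
    ∃ B : C → ℕ, Computable B ∧ ∀ c,
      (∃ v, lev c ≤ lv v ∧ E v = true ∧ B c = b1 v c) ∨
      ((∀ v, lev c ≤ lv v → E v = false) ∧ B c = b0 c) := by
  classical
  by_cases hA : ∀ n : ℕ, ∃ v, n ≤ lv v ∧ E v = true
  · have hp : Computable₂ fun (n : ℕ) (v : V) => (decide (n ≤ lv v) && E v) := by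
      have h1 : Computable fun a : ℕ × V => decide (a.1 ≤ lv a.2) := by
        have h0 : Computable₂ fun a b : ℕ => decide (a ≤ b) :=
          (Primrec.nat_le.decide).to_comp
        exact h0.comp Computable.fst (hlv.comp Computable.snd)
      exact (Primrec.and.to_comp).comp h1 (hE.comp Computable.snd)
    obtain ⟨f, hf, hf'⟩ := search _ hp (fun n => by
      obtain ⟨v, h1, h2⟩ := hA n
      exact ⟨v, by simp [h1, h2]⟩)
    refine ⟨fun c => b1 (f (lev c)) c, hb1.comp (hf.comp hlev) Computable.id, fun c => Or.inl ?_⟩
    have := hf' (lev c)
    simp only [Bool.and_eq_true, decide_eq_true_eq] at this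
    exact ⟨f (lev c), this.1, this.2, rfl⟩
  · push Not at hA
    obtain ⟨n0, hn0⟩ := hA
    have hn0' : ∀ v, n0 ≤ lv v → E v = false := fun v hv => by
      have := hn0 v hv
      simpa using this
    let T : ℕ → Option V := fun n =>
      if h : ∃ v, n ≤ lv v ∧ E v = true then some h.choose else none
    have hT : Computable fun n : ℕ => if n < n0 then T n else none :=
      (tab_primrec n0 none T).to_comp
    refine ⟨fun c => (Option.casesOn (if lev c < n0 then T (lev c) else none) (b0 c)
      fun v => b1 v c : ℕ), ?_, fun c => ?_⟩
    · refine Computable.option_casesOn (hT.comp hlev) hb0 ?_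
      exact hb1.comp Computable.snd Computable.fst
    · by_cases hc : ∃ v, lev c ≤ lv v ∧ E v = true
      · left
        have hlt : lev c < n0 := by
          by_contra hge
          obtain ⟨v, h1, h2⟩ := hc
          have := hn0' v (by omega)
          rw [this] at h2
          exact Bool.false_ne_true h2
        refine ⟨hc.choose, hc.choose_spec.1, hc.choose_spec.2, ?_⟩
        simp only [hlt, if_true, T, dif_pos hc]
      · right
        refine ⟨fun v hv => ?_, ?_⟩
        · by_contra hne
          exact hc ⟨v, hv, by simpa using hne⟩
        · have : (if lev c < n0 then T (lev c) else none) = none := by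
            split_ifs with h
            · simp only [T, dif_neg hc]
            · rfl
          simp only [this]

/-- Finite sums of computable functions are computable. -/
theorem comp_sum {C : Type*} [Primcodable C] {r : ℕ} (B : Fin r → C → ℕ)
    (h : ∀ i, Computable (B i)) : Computable fun c => ∑ i, B i c := by
  induction r with
  | zero => simpa using Computable.const 0
  | succ r ih =>
    simp only [Fin.sum_univ_castSucc]
    exact (Primrec.nat_add.to_comp).comp (ih (fun i => B i.castSucc) fun i => h _) (h _)

/-- The dichotomy at finitely many places: a computable `B` which is, for every place `i`, at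
least the bound given by some witness at `i` of level at least `lev c`, or there is no such
witness; and `B c` is at least `b0 c`. -/
theorem dich_fin {C V : Type*} [Primcodable C] [Primcodable V] [Inhabited V] {r : ℕ} (lev : C → ℕ)
    (hlev : Computable lev) (lv : V → ℕ) (hlv : Computable lv) (E : Fin r → V → Bool)
    (hE : ∀ i, Computable (E i)) (b0 : C → ℕ) (hb0 : Computable b0) (b1 : V → C → ℕ)
    (hb1 : Computable₂ b1) :
    ∃ B : C → ℕ, Computable B ∧ ∀ c, b0 c ≤ B c ∧ ∀ i,
      (∃ v, lev c ≤ lv v ∧ E i v = true ∧ b1 v c ≤ B c) ∨
      (∀ v, lev c ≤ lv v → E i v = false) := by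
  have h := fun i : Fin r => dich lev hlev lv hlv (E i) (hE i) b0 hb0 b1 hb1
  choose B hB hB' using h
  refine ⟨fun c => ∑ i, B i c + b0 c, ?_, fun c => ⟨Nat.le_add_left _ _, fun i => ?_⟩⟩
  · exact (Primrec.nat_add.to_comp).comp (comp_sum B hB) hb0
  · have hle : B i c ≤ ∑ i, B i c + b0 c :=
      le_trans (Finset.single_le_sum (f := fun i => B i c) (fun _ _ => Nat.zero_le _)
        (Finset.mem_univ i)) (Nat.le_add_right _ _)
    rcases hB' i c with ⟨v, h1, h2, h3⟩ | ⟨h1, _⟩
    · left
      exact ⟨v, h1, h2, h3 ▸ hle⟩
    · right
      exact h1

end Pool.H63.AL
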