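import Mathlib
import Pool.Agent.H63.AL.Dich

/-!
The chain dichotomy: if chains of exceptional objects have bounded length, there is a computable
function that bounds all exceptional objects of some level at least `n`.
-/

namespace Pool.H63.AL

/-- Check of a chain (sizes decreasing along the list); the second component is the size of the
first member (`0` for the empty list). -/
def chk {T : Type*} (lev : ℕ → T → Bool) (sz : T → ℕ) (W : ℕ → ℕ) (N : ℕ) (l : List T) :
    Bool × ℕ :=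
  l.foldr (fun t s => ((s.1 && lev N t) && decide (s.2 ^ W N < sz t), sz t)) (true, 0)

theorem chk_comp {T : Type*} [Primcodable T] (lev : ℕ → T → Bool) (hlev : Primrec₂ lev)
    (sz : T → ℕ) (hsz : Primrec sz) (W : ℕ → ℕ) (hW : Primrec W) :
    Primrec fun p : ℕ × List T => chk lev sz W p.1 p.2 := by
  unfold chk
  refine Primrec.list_foldr (f := fun p : ℕ × List T => p.2) (g := fun _ => (true, 0))
    (h := fun (p : ℕ × List T) (a : T × (Bool × ℕ)) =>
      ((a.2.1 && lev p.1 a.1) && decide (a.2.2 ^ W p.1 < sz a.1), sz a.1))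
    Primrec.snd (Primrec.const _) ?_
  have hN : Primrec fun z : (ℕ × List T) × (T × (Bool × ℕ)) => z.1.1 :=
    Primrec.fst.comp Primrec.fst
  have ht : Primrec fun z : (ℕ × List T) × (T × (Bool × ℕ)) => z.2.1 :=
    Primrec.fst.comp Primrec.snd
  have hb : Primrec fun z : (ℕ × List T) × (T × (Bool × ℕ)) => z.2.2.1 :=
    Primrec.fst.comp (Primrec.snd.comp Primrec.snd)
  have hm : Primrec fun z : (ℕ × List T) × (T × (Bool × ℕ)) => z.2.2.2 :=
    Primrec.snd.comp (Primrec.snd.comp Primrec.snd)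
  have hpow : Primrec₂ ((· ^ ·) : ℕ → ℕ → ℕ) := Primrec₂.unpaired'.1 Nat.Primrec.pow
  refine Primrec.pair ?_ (hsz.comp ht)
  refine Primrec.and.comp (Primrec.and.comp hb (hlev.comp hN ht)) ?_
  exact (Primrec.nat_lt.decide).comp (hpow.comp hm (hW.comp hN)) (hsz.comp ht)

theorem chk_sound {T : Type*} (lev : ℕ → T → Bool) (sz : T → ℕ) (W : ℕ → ℕ) (N : ℕ)
    (hW : 1 ≤ W N) (l : List T) (h : (chk lev sz W N l).1 = true) :
    (∀ t ∈ l, lev N t = true) ∧ (l.Pairwise fun s t => sz t ^ W N < sz s) ∧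
      (∀ t ∈ l, sz t ≤ (chk lev sz W N l).2) := by
  induction l with
  | nil => exact ⟨by simp, List.Pairwise.nil, by simp⟩
  | cons t l ih =>
    have h' : (((chk lev sz W N l).1 && lev N t) &&
        decide ((chk lev sz W N l).2 ^ W N < sz t)) = true := h
    simp only [Bool.and_eq_true, decide_eq_true_eq] at h'
    obtain ⟨⟨h1, h2⟩, h3⟩ := h'
    obtain ⟨i1, i2, i3⟩ := ih h1
    have h4 : ∀ u ∈ l, sz u ^ W N < sz t := fun u hu =>
      lt_of_le_of_lt (Nat.pow_le_pow_left (i3 u hu) _) h3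
    refine ⟨?_, ?_, ?_⟩
    · intro u hu
      rcases List.mem_cons.1 hu with rfl | hu
      · exact h2
      · exact i1 u hu
    · exact List.Pairwise.cons h4 i2
    · intro u hu
      show sz u ≤ sz t
      rcases List.mem_cons.1 hu with rfl | hu
      · exact le_rfl
      · exact le_trans (Nat.le_self_pow (by omega) _) (h4 u hu).le

theorem chk_cons {T : Type*} (lev : ℕ → T → Bool) (sz : T → ℕ) (W : ℕ → ℕ) (N : ℕ)
    (l : List T) (h : (chk lev sz W N l).1 = true) (t : T) (ht : lev N t = true)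
    (hs : (chk lev sz W N l).2 ^ W N < sz t) : (chk lev sz W N (t :: l)).1 = true := by
  show (((chk lev sz W N l).1 && lev N t) &&
    decide ((chk lev sz W N l).2 ^ W N < sz t)) = true
  simp [h, ht, hs]

/-- The chain dichotomy. -/
theorem chain_dich {T : Type*} [Primcodable T] (lev : ℕ → T → Bool) (hlev : Primrec₂ lev)
    (sz : T → ℕ) (hsz : Primrec sz) (W C : ℕ → ℕ) (hW : Primrec W) (hC : Primrec C)
    (hW1 : ∀ N, 1 ≤ W N) (r : ℕ)
    (hr : ∀ N, 3 ≤ N → ∀ l : List T, (∀ t ∈ l, lev N t = true) →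
      (l.Pairwise fun s t => sz t ^ W N < sz s) → l.length ≤ r) :
    ∃ B : ℕ → ℕ → ℕ, Computable₂ B ∧ ∀ n H, ∃ N, n ≤ N ∧ 3 ≤ N ∧ H ^ C N ≤ B n H ∧
      ∀ t, lev N t = true → sz t ≤ B n H := by
  classical
  let P : ℕ → Prop := fun ρ => ∀ n, ∃ N, n ≤ N ∧ ∃ l : List T, l.length = ρ ∧
    (chk lev sz W N l).1 = true
  have hP0 : P 0 := fun n => ⟨n, le_rfl, [], rfl, rfl⟩
  have hPr : ¬ P (r + 1) := by
    intro h
    obtain ⟨N, hN, l, hl, hc⟩ := h 3
    obtain ⟨h1, h2, _⟩ := chk_sound lev sz W N (hW1 N) l hc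
    have := hr N hN l h1 h2
    omega
  obtain ⟨ρ, hρ, hρ'⟩ : ∃ ρ, P ρ ∧ ¬ P (ρ + 1) := by
    by_contra hcon
    push Not at hcon
    have : ∀ k, P k := fun k => by
      induction k with
      | zero => exact hP0
      | succ k ih => exact hcon k ih
    exact hPr (this _)
  simp only [P] at hρ'
  push Not at hρ'
  obtain ⟨N0, hN0⟩ := hρ'
  -- the search
  have hdec : Computable₂ fun (n : ℕ) (v : ℕ × List T) =>
      (decide (n + (N0 + 3) ≤ v.1) && decide (v.2.length = ρ)) && (chk lev sz W v.1 v.2).1 := by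
    have h1 : Primrec fun z : ℕ × (ℕ × List T) => decide (z.1 + (N0 + 3) ≤ z.2.1) :=
      (Primrec.nat_le.decide).comp (Primrec.nat_add.comp Primrec.fst (Primrec.const _))
        (Primrec.fst.comp Primrec.snd)
    have h2 : Primrec fun z : ℕ × (ℕ × List T) => decide (z.2.2.length = ρ) :=
      (Primrec.eq.decide).comp
        (Primrec.list_length.comp (Primrec.snd.comp Primrec.snd)) (Primrec.const _)
    have h3 : Primrec fun z : ℕ × (ℕ × List T) => (chk lev sz W z.2.1 z.2.2).1 :=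
      Primrec.fst.comp ((chk_comp lev hlev sz hsz W hW).comp Primrec.snd)
    exact (Primrec.and.comp (Primrec.and.comp h1 h2) h3).to_comp
  obtain ⟨f, hf, hf'⟩ := search _ hdec (fun n => by
    obtain ⟨N, hN, l, hl, hc⟩ := hρ (n + (N0 + 3))
    exact ⟨(N, l), by simp [hN, hl, hc]⟩)
  have hpow : Primrec₂ ((· ^ ·) : ℕ → ℕ → ℕ) := Primrec₂.unpaired'.1 Nat.Primrec.pow
  refine ⟨fun n H => H ^ C (f n).1 + (chk lev sz W (f n).1 (f n).2).2 ^ W (f n).1, ?_,
    fun n H => ?_⟩
  · have hf1 : Computable fun z : ℕ × ℕ => (f z.1).1 :=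
      (Primrec.fst.to_comp).comp (hf.comp Computable.fst)
    have hf2 : Computable fun z : ℕ × ℕ => (chk lev sz W (f z.1).1 (f z.1).2).2 :=
      (Primrec.snd.to_comp).comp (((chk_comp lev hlev sz hsz W hW).to_comp).comp
        (hf.comp Computable.fst))
    exact (Primrec.nat_add.to_comp).comp
      ((hpow.to_comp).comp Computable.snd (hC.to_comp.comp hf1))
      ((hpow.to_comp).comp hf2 (hW.to_comp.comp hf1))
  · have h := hf' n
    simp only [Bool.and_eq_true, decide_eq_true_eq] at h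
    obtain ⟨⟨h1, h2⟩, h3⟩ := h
    refine ⟨(f n).1, by omega, by omega, Nat.le_add_right _ _, fun t ht => ?_⟩
    by_contra hlt
    push Not at hlt
    have hbig : (chk lev sz W (f n).1 (f n).2).2 ^ W (f n).1 < sz t :=
      lt_of_le_of_lt (Nat.le_add_left _ _) hlt
    have := hN0 (f n).1 (by omega) (t :: (f n).2) (by simp [h2])
    exact this (chk_cons lev sz W _ _ h3 t ht hbig)

/-- The chain dichotomy, with windows: at each level `N ≥ 3` the sizes lie in `r` windows
`[M, M ^ W N]`. -/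
theorem window_dich {T : Type*} [Primcodable T] (lev : ℕ → T → Bool) (hlev : Primrec₂ lev)
    (sz : T → ℕ) (hsz : Primrec sz) (W C : ℕ → ℕ) (hW : Primrec W) (hC : Primrec C)
    (hW1 : ∀ N, 1 ≤ W N) (r : ℕ)
    (hr : ∀ N, 3 ≤ N → ∃ M : Fin r → ℕ, ∀ t, lev N t = true →
      ∃ i, M i ≤ sz t ∧ sz t ≤ M i ^ W N) :
    ∃ B : ℕ → ℕ → ℕ, Computable₂ B ∧ ∀ n H, ∃ N, n ≤ N ∧ 3 ≤ N ∧ H ^ C N ≤ B n H ∧
      ∀ t, lev N t = true → sz t ≤ B n H := by
  refine chain_dich lev hlev sz hsz W C hW hC hW1 r fun N hN l hl hp => ?_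
  obtain ⟨M, hM⟩ := hr N hN
  choose i hi1 hi2 using fun j : Fin l.length => hM (l.get j) (hl _ (List.get_mem l j))
  have hinj : Function.Injective i := by
    intro a b hab
    by_contra hne
    rcases lt_or_gt_of_ne hne with hlt | hlt
    · have h1 := (List.pairwise_iff_get.1 hp) a b hlt
      have h2 : M (i a) ^ W N ≤ sz (l.get b) ^ W N :=
        Nat.pow_le_pow_left (hab ▸ hi1 b) _
      have h3 := hi2 a
      omega
    · have h1 := (List.pairwise_iff_get.1 hp) b a hlt
      have h2 : M (i b) ^ W N ≤ sz (l.get a) ^ W N :=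
        Nat.pow_le_pow_left (hab ▸ hi1 a) _
      have h3 := hi2 b
      omega
  have := Fintype.card_le_of_injective i hinj
  simpa using this

end Pool.H63.AL
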