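import Mathlib
import Pool.Agent.H63.AL.Chain

/-!
The chain dichotomy, uniform in a parameter: one partial recursive function for all parameters `q`,
with two unknown numbers `ρ`, `N0` for each `q`.
-/

namespace Pool.H63.AL

section

variable {Q T : Type*} [Primcodable Q] [Primcodable T]

/-- The parameterised chain check. -/
theorem chkQ_comp (lev : Q → ℕ → T → Bool) (hlev : Primrec fun p : Q × ℕ × T => lev p.1 p.2.1 p.2.2)
    (sz : T → ℕ) (hsz : Primrec sz) (W : ℕ → ℕ) (hW : Primrec W) :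
    Primrec fun p : Q × ℕ × List T => chk (lev p.1) sz W p.2.1 p.2.2 := by
  unfold chk
  refine Primrec.list_foldr (f := fun p : Q × ℕ × List T => p.2.2) (g := fun _ => (true, 0))
    (h := fun (p : Q × ℕ × List T) (a : T × (Bool × ℕ)) =>
      ((a.2.1 && lev p.1 p.2.1 a.1) && decide (a.2.2 ^ W p.2.1 < sz a.1), sz a.1))
    (Primrec.snd.comp Primrec.snd) (Primrec.const _) ?_
  have hq : Primrec fun z : (Q × ℕ × List T) × (T × (Bool × ℕ)) => z.1.1 :=
    Primrec.fst.comp Primrec.fst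
  have hN : Primrec fun z : (Q × ℕ × List T) × (T × (Bool × ℕ)) => z.1.2.1 :=
    Primrec.fst.comp (Primrec.snd.comp Primrec.fst)
  have ht : Primrec fun z : (Q × ℕ × List T) × (T × (Bool × ℕ)) => z.2.1 :=
    Primrec.fst.comp Primrec.snd
  have hb : Primrec fun z : (Q × ℕ × List T) × (T × (Bool × ℕ)) => z.2.2.1 :=
    Primrec.fst.comp (Primrec.snd.comp Primrec.snd)
  have hm : Primrec fun z : (Q × ℕ × List T) × (T × (Bool × ℕ)) => z.2.2.2 :=
    Primrec.snd.comp (Primrec.snd.comp Primrec.snd)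
  have hpow : Primrec₂ ((· ^ ·) : ℕ → ℕ → ℕ) := Primrec₂.unpaired'.1 Nat.Primrec.pow
  refine Primrec.pair ?_ (hsz.comp ht)
  refine Primrec.and.comp (Primrec.and.comp hb
    (hlev.comp (Primrec.pair hq (Primrec.pair hN ht)))) ?_
  exact (Primrec.nat_lt.decide).comp (hpow.comp hm (hW.comp hN)) (hsz.comp ht)

/-- The input of the algorithm: the parameter `q`, the numbers `ρ`, `N0`, and `n`. -/
abbrev In (Q : Type*) : Type _ := Q × (ℕ × ℕ) × ℕ

/-- The search condition. -/
def sc (lev : Q → ℕ → T → Bool) (sz : T → ℕ) (W : ℕ → ℕ) (z : In Q) (v : ℕ × List T) : Bool :=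
  (decide (z.2.2 + (z.2.1.2 + 3) ≤ v.1) && decide (v.2.length = z.2.1.1)) &&
    (chk (lev z.1) sz W v.1 v.2).1

theorem sc_comp (lev : Q → ℕ → T → Bool)
    (hlev : Primrec fun p : Q × ℕ × T => lev p.1 p.2.1 p.2.2)
    (sz : T → ℕ) (hsz : Primrec sz) (W : ℕ → ℕ) (hW : Primrec W) : Primrec₂ (sc lev sz W) := by
  unfold sc
  have hn : Primrec fun z : In Q × (ℕ × List T) => z.1.2.2 :=
    Primrec.snd.comp (Primrec.snd.comp Primrec.fst)
  have hN0 : Primrec fun z : In Q × (ℕ × List T) => z.1.2.1.2 :=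
    Primrec.snd.comp (Primrec.fst.comp (Primrec.snd.comp Primrec.fst))
  have hρ : Primrec fun z : In Q × (ℕ × List T) => z.1.2.1.1 :=
    Primrec.fst.comp (Primrec.fst.comp (Primrec.snd.comp Primrec.fst))
  have hq : Primrec fun z : In Q × (ℕ × List T) => z.1.1 := Primrec.fst.comp Primrec.fst
  have hN : Primrec fun z : In Q × (ℕ × List T) => z.2.1 := Primrec.fst.comp Primrec.snd
  have hl : Primrec fun z : In Q × (ℕ × List T) => z.2.2 := Primrec.snd.comp Primrec.snd
  have h1 : Primrec fun z : In Q × (ℕ × List T) => decide (z.1.2.2 + (z.1.2.1.2 + 3) ≤ z.2.1) :=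
    (Primrec.nat_le.decide).comp (Primrec.nat_add.comp hn
      (Primrec.nat_add.comp hN0 (Primrec.const 3))) hN
  have h2 : Primrec fun z : In Q × (ℕ × List T) => decide (z.2.2.length = z.1.2.1.1) :=
    (Primrec.eq.decide).comp (Primrec.list_length.comp hl) hρ
  have h3 : Primrec fun z : In Q × (ℕ × List T) => (chk (lev z.1.1) sz W z.2.1 z.2.2).1 :=
    Primrec.fst.comp ((chkQ_comp lev hlev sz hsz W hW).comp
      (Primrec.pair hq (Primrec.pair hN hl)))
  exact Primrec.and.comp (Primrec.and.comp h1 h2) h3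

/-- The partial search: for each input the first code of a value for which `p` is true. -/
def psq {C W : Type*} [Primcodable W] (p : C → W → Bool) (c : C) : Part (Option W) :=
  (Nat.rfind (qp p c)).map fun n => Encodable.decode (α := W) n

theorem psq_partrec {C W : Type*} [Primcodable C] [Primcodable W] (p : C → W → Bool)
    (hp : Computable₂ p) : Partrec (psq p) := by
  unfold psq
  refine Partrec.map (Partrec.rfind (p := qp p) (q_comp p hp).partrec₂) ?_
  exact Computable.decode.comp Computable.snd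

theorem psq_spec {C W : Type*} [Primcodable W] (p : C → W → Bool) (c : C)
    (h : ∃ w, p c w = true) : ∃ w, some w ∈ psq p c ∧ p c w = true := by
  have hex : ∃ n, q p c n = true := by
    obtain ⟨w, hw⟩ := h
    exact ⟨Encodable.encode w, by simp [q, hw]⟩
  have hmem : Nat.find hex ∈ Nat.rfind (qp p c) := by
    rw [Nat.mem_rfind]
    refine ⟨?_, ?_⟩
    · show true ∈ Part.some (q p c (Nat.find hex))
      rw [Part.mem_some_iff]
      exact (Nat.find_spec hex).symm
    · intro m hm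
      show false ∈ Part.some (q p c m)
      rw [Part.mem_some_iff]
      have := Nat.find_min hex hm
      simpa using this
  have hs := Nat.find_spec hex
  generalize Nat.find hex = n at hs hmem
  unfold q at hs
  cases hd : Encodable.decode (α := W) n with
  | none => rw [hd] at hs; simp at hs
  | some w =>
    rw [hd] at hs
    refine ⟨w, ?_, by simpa using hs⟩
    rw [psq, Part.mem_map_iff]
    exact ⟨n, hmem, hd⟩

/-- The value computed from the chain found. -/
def val (sz : T → ℕ) (W C : ℕ → ℕ) (H : ℕ) : Option (ℕ × List T) → ℕ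
  | none => 0
  | some v => H ^ C v.1 + ((v.2.head?.map sz).getD 0) ^ W v.1

theorem val_comp (sz : T → ℕ) (hsz : Primrec sz) (W C : ℕ → ℕ) (hW : Primrec W)
    (hC : Primrec C) : Primrec₂ (val sz W C) := by
  have hpow : Primrec₂ ((· ^ ·) : ℕ → ℕ → ℕ) := Primrec₂.unpaired'.1 Nat.Primrec.pow
  have h1 : Primrec₂ fun (z : ℕ × Option (ℕ × List T)) (v : ℕ × List T) =>
      z.1 ^ C v.1 + ((v.2.head?.map sz).getD 0) ^ W v.1 := by
    have hv : Primrec fun y : (ℕ × Option (ℕ × List T)) × (ℕ × List T) => y.2.1 :=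
      Primrec.fst.comp Primrec.snd
    have hl : Primrec fun y : (ℕ × Option (ℕ × List T)) × (ℕ × List T) => y.2.2 :=
      Primrec.snd.comp Primrec.snd
    have hH : Primrec fun y : (ℕ × Option (ℕ × List T)) × (ℕ × List T) => y.1.1 :=
      Primrec.fst.comp Primrec.fst
    refine Primrec.nat_add.comp (hpow.comp hH (hC.comp hv)) (hpow.comp ?_ (hW.comp hv))
    exact Primrec.option_getD.comp (Primrec.option_map (Primrec.list_head?.comp hl)
      (hsz.comp Primrec.snd)) (Primrec.const 0)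
  refine (Primrec.option_casesOn (o := fun z : ℕ × Option (ℕ × List T) => z.2)
    (f := fun _ => 0) Primrec.snd (Primrec.const 0) h1).of_eq fun z => ?_
  obtain ⟨H, _ | v⟩ := z <;> rfl

theorem chk_head (lev : ℕ → T → Bool) (sz : T → ℕ) (W : ℕ → ℕ) (N : ℕ) (l : List T) :
    (chk lev sz W N l).2 = (l.head?.map sz).getD 0 := by
  cases l <;> rfl

/-- **The uniform chain dichotomy.** There is one partial recursive function `A` such that, for
every parameter `q` for which the chains at all levels `N ≥ 3` have length at most `r`, there are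
`ρ ≤ r` and `N0` such that `A` halts for all `n`, `H` and its value bounds `H ^ C N` and the sizes
of all objects of some level `N ≥ n`. -/
theorem chain_unif (lev : Q → ℕ → T → Bool)
    (hlev : Primrec fun p : Q × ℕ × T => lev p.1 p.2.1 p.2.2)
    (sz : T → ℕ) (hsz : Primrec sz) (W C : ℕ → ℕ) (hW : Primrec W) (hC : Primrec C)
    (hW1 : ∀ N, 1 ≤ W N) :
    ∃ A : Q × (ℕ × ℕ) × (ℕ × ℕ) →. ℕ, Partrec A ∧ ∀ (q : Q) (r : ℕ),
      (∀ N, 3 ≤ N → ∀ l : List T, (∀ t ∈ l, lev q N t = true) →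
        (l.Pairwise fun s t => sz t ^ W N < sz s) → l.length ≤ r) →
      ∃ ρ ≤ r, ∃ N0, ∀ n H, ∃ B ∈ A (q, (ρ, N0), (n, H)), ∃ N, n ≤ N ∧ 3 ≤ N ∧ H ^ C N ≤ B ∧
        ∀ t, lev q N t = true → sz t ≤ B := by
  classical
  let A : Q × (ℕ × ℕ) × (ℕ × ℕ) →. ℕ := fun z =>
    (psq (sc lev sz W) (z.1, z.2.1, z.2.2.1)).map fun o => val sz W C z.2.2.2 o
  refine ⟨A, ?_, ?_⟩
  · have h1 : Computable fun z : Q × (ℕ × ℕ) × (ℕ × ℕ) => ((z.1, z.2.1, z.2.2.1) : In Q) :=
      (Primrec.pair Primrec.fst (Primrec.pair (Primrec.fst.comp Primrec.snd)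
        (Primrec.fst.comp (Primrec.snd.comp Primrec.snd)))).to_comp
    refine Partrec.map ((psq_partrec _ (sc_comp lev hlev sz hsz W hW).to_comp).comp h1) ?_
    exact ((val_comp sz hsz W C hW hC).to_comp).comp
      ((Primrec.snd.comp (Primrec.snd.comp (Primrec.snd.comp Primrec.fst))).to_comp)
      Computable.snd
  intro q r hr
  let P : ℕ → Prop := fun ρ => ∀ n, ∃ N, n ≤ N ∧ ∃ l : List T, l.length = ρ ∧
    (chk (lev q) sz W N l).1 = true
  have hP0 : P 0 := fun n => ⟨n, le_rfl, [], rfl, rfl⟩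
  have hPr : ∀ ρ, P ρ → ρ ≤ r := by
    intro ρ h
    obtain ⟨N, hN, l, hl, hc⟩ := h 3
    obtain ⟨h1, h2, _⟩ := chk_sound (lev q) sz W N (hW1 N) l hc
    have := hr N hN l h1 h2
    omega
  obtain ⟨ρ, hρ, hρ'⟩ : ∃ ρ, P ρ ∧ ¬ P (ρ + 1) := by
    by_contra hcon
    push Not at hcon
    have : ∀ k, P k := fun k => by
      induction k with
      | zero => exact hP0
      | succ k ih => exact hcon k ih
    have := hPr (r + 1) (this _)
    omega
  refine ⟨ρ, hPr ρ hρ, ?_⟩
  simp only [P] at hρ'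
  push Not at hρ'
  obtain ⟨N0, hN0⟩ := hρ'
  refine ⟨N0, fun n H => ?_⟩
  obtain ⟨v, hv, hv'⟩ := psq_spec (sc lev sz W) ((q, (ρ, N0), n) : In Q) (by
    obtain ⟨N, hN, l, hl, hc⟩ := hρ (n + (N0 + 3))
    exact ⟨(N, l), by simp [sc, hN, hl, hc]⟩)
  simp only [sc, Bool.and_eq_true, decide_eq_true_eq] at hv'
  obtain ⟨⟨h1, h2⟩, h3⟩ := hv'
  refine ⟨val sz W C H (some v), Part.mem_map _ hv, v.1, by omega, by omega,
    Nat.le_add_right _ _, fun t ht => ?_⟩
  by_contra hlt
  push Not at hlt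
  have hbig : (chk (lev q) sz W v.1 v.2).2 ^ W v.1 < sz t := by
    rw [chk_head]
    exact lt_of_le_of_lt (Nat.le_add_left _ _) hlt
  exact hN0 v.1 (by omega) (t :: v.2) (by simp [h2]) (chk_cons (lev q) sz W _ _ h3 t ht hbig)

end

end Pool.H63.AL
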